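import Pool.Agent.N85.TG.All
import Pool.Agent.Q259.BW.Bij

/-!
# The McKay–Galois conjecture and groups generated by `p`-elements and copies of a `p'`-group

For a group `A` of automorphisms of `ℂ` and a finite group `G` let `A_p(G)` be the group of the elements
of `A` which act on the `|G|`-th roots of unity with `p`-power order; its image in the automorphism
group of the field of the `|G|`-th roots of unity is the Sylow `p`-subgroup of the image of `A`.

Proof. Let `P ≠ 1` be a Sylow `p`-subgroup of `H`, let `T = S^r`, `n = |T|`, and let `Γ` be the subgroup of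
the wreath product `H ≀ T` (regular action) generated by the `p`-elements and by the kernel of the
homomorphism `H ≀ T → H/[H, H]`, the product of the components; it is generated by `p`-elements and
subgroups isomorphic to `S`, and `|H ≀ T : Γ|` divides `|H/[H, H]|` and is prime to `p`. Let `X` be a
normal subgroup of `J` of index `m` prime to `p` and `A` a group of automorphisms which acts on the
`|J|`-th roots of unity as a `p`-group. By Clifford's theorem the number of the irreducible
constituents of `χ|_X` divides `m`, so one of them is fixed by `A` if `χ` is; and a fixed irreducible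
character `θ` of `X` lies under a fixed one with the same `p`-part of the degree: consider
`∑ ⟨χ|_X, θ⟩ χ(1)/θ(1) = m` modulo `p`. So passing from `J` to `X` and back changes the number of the
fixed characters of `p'`-degree at most by the factor `m`. This applies to `H ≀ T`, `Γ`, the base group
`H^n` and to the normalizers of `Q = P^n`. The fixed characters of `H^n` are the products of fixed
characters, so `|Irr_{p'}(Γ)^A|` is `(|Irr_{p'}(H)^A|)^n` and `|Irr_{p'}(N_Γ(Q))^A|` is
`(|Irr_{p'}(N_H(P))^A|)^n` up to factors which are polynomials in `n`. Let `n → ∞`.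
-/

set_option autoImplicit false

open scoped Classical

noncomputable section

namespace Pool.Agent.Results.MP_1ae3da_al.GeneratedByCopies

/-- `φ` is the character of an irreducible finite-dimensional representation of `G` over `ℂ`. -/
def IsIrr {G : Type} [Group G] (φ : G → ℂ) : Prop :=
  ∃ (V : Type) (_ : AddCommGroup V) (_ : Module ℂ V) (_ : FiniteDimensional ℂ V)
    (ρ : Representation ℂ G V), ρ.IsIrreducible ∧ φ = ρ.character

/-- `Irr_{p'}(G)`: the irreducible characters of degree prime to `p`. -/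
def IrrP (p : ℕ) (G : Type) [Group G] : Set (G → ℂ) :=
  {χ | IsIrr χ ∧ ∃ n : ℕ, χ 1 = (n : ℂ) ∧ ¬ p ∣ n}

/-- The subgroup generated by the elements of `A` which act on the `n`-th roots of unity with `p`-power
order (for `n > 0` these elements form a subgroup, since automorphisms commute on the roots of
unity). For `n = |G|` this is `A_p(G)`. -/
def pPart (p : ℕ) (A : Subgroup (ℂ ≃+* ℂ)) (n : ℕ) : Subgroup (ℂ ≃+* ℂ) :=
  Subgroup.closure {t | t ∈ A ∧ ∃ k : ℕ, ∀ ζ : ℂ, ζ ^ n = 1 → (t ^ p ^ k) ζ = ζ}

/-- The number of the functions in `X` which are fixed by all elements of `A`. -/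
def fixedNum (A : Subgroup (ℂ ≃+* ℂ)) {G : Type} (X : Set (G → ℂ)) : ℕ :=
  Nat.card {χ : G → ℂ // χ ∈ X ∧ ∀ t ∈ A, ∀ x : G, t (χ x) = χ x}

/-- The group `A` of automorphisms permutes `X` and the actions of `A` on `X` and `Y` are permutation
isomorphic: there is a bijection `f : X → Y` with `f(σ χ) = σ f(χ)` for all `σ ∈ A`, `χ ∈ X`. -/
def PermIso (A : Subgroup (ℂ ≃+* ℂ)) {G H : Type} (X : Set (G → ℂ)) (Y : Set (H → ℂ)) : Prop :=
  ∃ f : X ≃ Y, ∀ σ ∈ A, ∀ χ : X, ∃ h : (fun g => σ ((χ : G → ℂ) g)) ∈ X,
    (f ⟨fun g => σ ((χ : G → ℂ) g), h⟩ : H → ℂ) = fun g => σ ((f χ : H → ℂ) g)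

/-- `G` is generated by its `p`-elements and its subgroups isomorphic to `S`. -/
def GeneratedBy (p : ℕ) (S G : Type) [Group S] [Group G] : Prop :=
  Subgroup.closure {x : G | ∃ j : ℕ, orderOf x = p ^ j} ⊔
    (⨆ S' : {S' : Subgroup G // Nonempty (S' ≃* S)}, S'.1) = ⊤

/-- The relation `R` holds for the numbers of the characters in `Irr_{p'}(G)` and `Irr_{p'}(N_G(P))` fixed
by `A_p(G)`, for all finite groups `G` and all Sylow `p`-subgroups `P` of `G`. -/
def Exact (p : ℕ) (A : Subgroup (ℂ ≃+* ℂ)) (R : ℕ → ℕ → Prop) : Prop :=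
  ∀ (G : Type) [Group G] [Finite G] (P : Sylow p G),
    R (fixedNum (pPart p A (Nat.card G)) (IrrP p G))
      (fixedNum (pPart p A (Nat.card G))
        (IrrP p (Subgroup.normalizer ((P : Subgroup G) : Set G))))

/-- For every `ε > 0` there is a constant `C` such that `R C' a b` with `C' = C |G|^ε` for the numbers `a`,
`b` of the characters in `Irr_{p'}(G)` and `Irr_{p'}(N_G(P))` fixed by `A_p(G)`, for all finite groups `G`
generated by `p`-elements and subgroups isomorphic to `S` and all Sylow `p`-subgroups `P` of `G`. -/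
def Approximate (p : ℕ) (A : Subgroup (ℂ ≃+* ℂ)) (S : Type) [Group S] (R : ℝ → ℝ → ℝ → Prop) :
    Prop :=
  ∀ ε : ℝ, 0 < ε → ∃ C : ℝ, ∀ (G : Type) [Group G] [Finite G], GeneratedBy p S G →
    ∀ P : Sylow p G, R (C * (Nat.card G : ℝ) ^ ε)
      (fixedNum (pPart p A (Nat.card G)) (IrrP p G))
      (fixedNum (pPart p A (Nat.card G))
        (IrrP p (Subgroup.normalizer ((P : Subgroup G) : Set G))))

theorem pPart_le (p : ℕ) (A : Subgroup (ℂ ≃+* ℂ)) (n : ℕ) : pPart p A n ≤ A :=
  (Subgroup.closure_le _).2 fun _ ht => ht.1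

/-- a subgroup of `A_p(G)` is its own `p`-part -/
theorem pPart_self {p : ℕ} [Fact p.Prime] {A D : Subgroup (ℂ ≃+* ℂ)} {n : ℕ} (hn : 0 < n)
    (h : D ≤ pPart p A n) : pPart p D n = D := by
  refine le_antisymm (pPart_le p D n) fun t ht => ?_
  exact Subgroup.subset_closure ⟨ht, Pool.Agent.N85.TG.Ppg.main p A n hn t (h ht)⟩

theorem irr_fin (G : Type) [Group G] [Finite G] (p : ℕ) : (IrrP p G).Finite := by
  have h : Finite (IrrP p G) := Pool.Agent.N85.KG.fin_sub G fun χ h => h.1
  exact Set.toFinite _

theorem stable (G : Type) [Group G] (p : ℕ) (σ : ℂ ≃+* ℂ) (χ : G → ℂ) (h : χ ∈ IrrP p G) :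
    (fun g => σ (χ g)) ∈ IrrP p G := by
  obtain ⟨h1, n, hn, h2⟩ := h
  refine ⟨Pool.Agent.Q90.WR.irr_gal σ h1, n, ?_, h2⟩
  change σ (χ 1) = _
  rw [hn, map_natCast]

theorem pgroup_of {p : ℕ} [Fact p.Prime] {S G : Type} [Group S] [Group G]
    (hS : commutator S = ⊤) (h : GeneratedBy p S G) : IsPGroup p (Abelianization G) := by
  let P : Subgroup (Abelianization G) :=
    { carrier := {x | ∃ j : ℕ, x ^ p ^ j = 1}
      one_mem' := ⟨0, one_pow _⟩
      mul_mem' := by
        rintro a b ⟨i, hi⟩ ⟨j, hj⟩
        refine ⟨i + j, ?_⟩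
        rw [mul_pow, pow_add, pow_mul, hi, one_pow, one_mul, mul_comm, pow_mul, hj, one_pow]
      inv_mem' := by
        rintro a ⟨i, hi⟩
        exact ⟨i, by rw [inv_pow, hi, inv_one]⟩ }
  have h1 : (⊤ : Subgroup G) ≤ P.comap Abelianization.of := by
    rw [← h]
    refine sup_le ?_ (iSup_le fun S' => ?_)
    · rw [Subgroup.closure_le]
      rintro x ⟨j, hj⟩
      refine ⟨j, ?_⟩
      rw [← map_pow, ← hj, pow_orderOf_eq_one, map_one]
    · obtain ⟨e⟩ := S'.2
      have h2 : commutator S'.1 = ⊤ := by
        have h2 : (commutator S).map e.symm.toMonoidHom = commutator S'.1 := by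
          unfold commutator
          rw [Subgroup.map_commutator]
          have h3 : (⊤ : Subgroup S).map e.symm.toMonoidHom = ⊤ :=
            Subgroup.map_top_of_surjective _ e.symm.surjective
          rw [h3]
        rw [← h2, hS]
        exact Subgroup.map_top_of_surjective _ e.symm.surjective
      have h4 : S'.1 = (commutator S'.1).map S'.1.subtype := by
        rw [h2, ← MonoidHom.range_eq_map, Subgroup.range_subtype]
      have h5 : S'.1 ≤ commutator G := by
        rw [h4]
        unfold commutator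
        rw [Subgroup.map_commutator]
        exact Subgroup.commutator_mono le_top le_top
      intro x hx
      have h6 : x ∈ (Abelianization.of : G →* Abelianization G).ker := by
        rw [Abelianization.ker_of]
        exact h5 hx
      rw [MonoidHom.mem_ker] at h6
      exact ⟨0, by rw [h6, one_pow]⟩
  intro x
  obtain ⟨g, rfl⟩ := QuotientGroup.mk_surjective x
  exact h1 (Subgroup.mem_top g)

/-- **The McKay–Galois conjecture and groups generated by `p`-elements and copies of a `p'`-group.** Let
`p` be a prime and `S` a nontrivial finite group of order prime to `p`.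
(1) For every group `A` of automorphisms of `ℂ`: `|Irr_{p'}(G)^{A_p(G)}| ≤ |Irr_{p'}(N_G(P))^{A_p(G)}|` holds for
all finite groups `G` and Sylow `p`-subgroups `P` of `G` if and only if for every `ε > 0` there is a constant
`C` such that `|Irr_{p'}(G)^{A_p(G)}| ≤ C |G|^ε |Irr_{p'}(N_G(P))^{A_p(G)}|` for the finite groups `G` generated
by `p`-elements and subgroups isomorphic to `S`; the same with the two numbers exchanged; and the same
for the equality and both approximate inequalities.
(2) For every group `A` of automorphisms of `ℂ` (for instance the group `𝓗` of the McKay–Galois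
conjecture) the actions of `A_p(G)` on `Irr_{p'}(G)` and `Irr_{p'}(N_G(P))` are permutation isomorphic for all
finite groups `G` and Sylow `p`-subgroups `P` of `G` if and only if both approximate inequalities hold
for all subgroups of `A`.
(3) If `S` is perfect, then `G/[G, G]` is a `p`-group for the groups `G` generated by `p`-elements and
subgroups isomorphic to `S`. -/
theorem result (p : ℕ) [Fact p.Prime] (S : Type) [Group S] [Finite S] [Nontrivial S]
    (hS : ¬ p ∣ Nat.card S) :
    (∀ A : Subgroup (ℂ ≃+* ℂ),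
      (Exact p A (fun a b => a ≤ b) ↔ Approximate p A S (fun c a b => a ≤ c * b)) ∧
      (Exact p A (fun a b => b ≤ a) ↔ Approximate p A S (fun c a b => b ≤ c * a)) ∧
      (Exact p A (fun a b => a = b) ↔
        Approximate p A S (fun c a b => a ≤ c * b ∧ b ≤ c * a))) ∧
    (∀ A : Subgroup (ℂ ≃+* ℂ),
      (∀ (G : Type) [Group G] [Finite G] (P : Sylow p G),
        PermIso (pPart p A (Nat.card G)) (IrrP p G)
          (IrrP p (Subgroup.normalizer ((P : Subgroup G) : Set G)))) ↔
      ∀ D ≤ A, Approximate p D S (fun c a b => a ≤ c * b ∧ b ≤ c * a)) ∧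
    (commutator S = ⊤ → ∀ (G : Type) [Group G], GeneratedBy p S G →
      IsPGroup p (Abelianization G)) := by
  have hh := Pool.Agent.N85.TG.allT
  -- exact implies approximate
  have ex1 : ∀ (A : Subgroup (ℂ ≃+* ℂ)) (R : ℕ → ℕ → Prop) (R' : ℝ → ℝ → ℝ → Prop),
      (∀ (c : ℝ) (a b : ℕ), 1 ≤ c → R a b → R' c a b) →
      Exact p A R → Approximate p A S R' := by
    intro A R R' hR h ε hε
    refine ⟨1, fun G _ _ _ P => ?_⟩
    rw [one_mul]
    exact hR _ _ _ (Real.one_le_rpow (by exact_mod_cast Nat.card_pos) hε.le) (h G P)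
  have ap1 : ∀ A : Subgroup (ℂ ≃+* ℂ), Approximate p A S (fun c a b => a ≤ c * b) →
      Exact p A (fun a b => a ≤ b) := fun A h G _ _ P =>
    Pool.Agent.N85.TG.coreM1 hh A S hS h G P
  have ap2 : ∀ A : Subgroup (ℂ ≃+* ℂ), Approximate p A S (fun c a b => b ≤ c * a) →
      Exact p A (fun a b => b ≤ a) := fun A h G _ _ P =>
    Pool.Agent.N85.TG.coreM2 hh A S hS h G P
  have ap3 : ∀ A : Subgroup (ℂ ≃+* ℂ),
      Approximate p A S (fun c a b => a ≤ c * b ∧ b ≤ c * a) → Exact p A (fun a b => a = b) := by
    intro A h G _ _ P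
    have h1 : Approximate p A S (fun c a b => a ≤ c * b) := by
      intro ε hε
      obtain ⟨C, hC⟩ := h ε hε
      exact ⟨C, fun G _ _ hG P => (hC G hG P).1⟩
    have h2 : Approximate p A S (fun c a b => b ≤ c * a) := by
      intro ε hε
      obtain ⟨C, hC⟩ := h ε hε
      exact ⟨C, fun G _ _ hG P => (hC G hG P).2⟩
    exact le_antisymm (ap1 A h1 G P) (ap2 A h2 G P)
  have c1 : ∀ (c : ℝ) (a b : ℕ), 1 ≤ c → a ≤ b → (a : ℝ) ≤ c * b := by
    intro c a b hc hab
    have : (a : ℝ) ≤ b := by exact_mod_cast hab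
    exact this.trans (le_mul_of_one_le_left (Nat.cast_nonneg b) hc)
  have c3 : ∀ A : Subgroup (ℂ ≃+* ℂ), Exact p A (fun a b => a = b) →
      Approximate p A S (fun c a b => a ≤ c * b ∧ b ≤ c * a) := fun A =>
    ex1 A _ _ fun c a b hc h => ⟨c1 c a b hc h.le, c1 c b a hc h.ge⟩
  refine ⟨fun A => ⟨⟨ex1 A _ _ c1, ap1 A⟩, ⟨ex1 A _ _ (fun c a b hc h => c1 c b a hc h), ap2 A⟩,
    ⟨c3 A, ap3 A⟩⟩, fun A => ⟨fun h D hD => c3 D fun G _ _ P => ?_, fun h G _ _ P => ?_⟩,
    fun h G _ hG => pgroup_of h hG⟩
  · exact Pool.Agent.Q259.BW.num_of_bij (h G P)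
      (Δ := (pPart p D (Nat.card G) : Set (ℂ ≃+* ℂ))) (by
        refine (Subgroup.closure_le _).2 ?_
        rintro t ⟨ht, k, hk⟩
        exact Subgroup.subset_closure ⟨hD ht, k, hk⟩)
  · refine Pool.Agent.Q259.BW.bij_of_num (irr_fin _ _) (irr_fin _ _)
      (Γ := pPart p A (Nat.card G)) (fun σ _ χ hχ => stable _ _ σ χ hχ)
      (fun σ _ χ hχ => stable _ _ σ χ hχ) fun D hD => ?_
    have h1 := ap3 D (h D (hD.trans (pPart_le p A _))) G P
    rw [pPart_self Nat.card_pos hD] at h1
    exact h1

end Pool.Agent.Results.MP_1ae3da_al.GeneratedByCopies
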