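import Pool.Agent.N226.MG.Main

/-!
# The McKay–Galois conjecture for odd primes and automorphisms acting with odd order: parity decides

Notation (`Pool/Agent/N226/MG/Main.lean`, `Pool/Agent/Q259/BW/Cnt.lean`, `Pool/Agent/Q259/BW/Bij.lean`,
`Pool/Agent/Q90/WR`).

* `IrrP p G` is `Irr_{p'}(G)`, the set of the irreducible complex characters of `G` of degree prime to
  `p`; `Nm P` is the normalizer of the Sylow `p`-subgroup `P`.
* `Fx S A` is the set of the characters in `A` fixed by all automorphisms `σ ∈ S` of `ℂ`.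
* `Adm p S G P`: for every `σ ∈ S` some odd power of `σ` fixes all characters in `Irr_{p'}(G)` and in
  `Irr_{p'}(N_G(P))`, that is, the permutations of these sets given by `σ` have odd order.
* `EquivBij Γ A A'`: there is a bijection `A → A'` commuting with all `σ ∈ Γ`.
* `Wr G` is the wreath product `G ≀ C₂`, and `WrN j G` its `j`-th iterate.

Proof. For odd `p` the normalizer of a Sylow subgroup of `G ≀ C₂` is `N_G(P) ≀ C₂`. If `S` acts with odd
order, then the number `x` of the characters in `Irr_{p'}` fixed by `S` becomes `(x² + 3 x) / 2`, for `G`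
and for the normalizer: a character induced from `χ ⊗ ψ`, `χ ≠ ψ`, is fixed if and only if `χ` and `ψ`
are fixed, because no `σ ∈ S` interchanges them. So if the two numbers are congruent modulo `2 ^ (a + 1)`
for `G` and for `G ≀ C₂`, then they are congruent modulo `2 ^ (a + 2)` for `G`. Equal numbers of fixed
characters for all subgroups of `Γ` give an equivariant bijection.
-/

set_option autoImplicit false

namespace Pool.Agent.Results.MP_1ae3da_al.OddActionsParity

open Pool.Agent.N226.MG Pool.Agent.Q259.BW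
open Pool.Agent.Q90.WR (Wr WrN)

/-- **Parity decides.** Let `p` be an odd prime.
(1) Let `H` be any set of automorphisms of `ℂ`, for example Navarro's group of all `σ` for which there
is an `e ≥ 0` with `σ(ξ) = ξ ^ (p ^ e)` for all roots of unity `ξ` of order prime to `p`, and let `X`
be a class of groups which is closed under `G ↦ G ≀ C₂`, for example the class of all groups. For all
finite groups `G` in `X` with a Sylow `p`-subgroup `P` and all groups `Γ ⊆ H` whose elements act with
odd order on `Irr_{p'}(G)` and `Irr_{p'}(N_G(P))` there is a `Γ`-equivariant bijection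
`Irr_{p'}(G) → Irr_{p'}(N_G(P))`, if and only if for all these `G`, `P` and `Γ` the numbers of the
characters in `Irr_{p'}(G)` and in `Irr_{p'}(N_G(P))` fixed by `Γ` are congruent modulo `2`.
(2) For one finite group `G` and one group `Γ` of this kind there is a `Γ`-equivariant bijection if and
only if for all subgroups `Δ` of `Γ` and the (finitely many) `j` with `2 ^ j ≤ |G|` these numbers are
congruent modulo `2` for `Δ` and the `j`-th iterated wreath product of `G` with `C₂`; the elements of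
`Γ` act with odd order for these groups, too. -/
theorem result (p : ℕ) [Fact p.Prime] (hp2 : p ≠ 2) :
    (∀ (H : Set (ℂ ≃+* ℂ)) (X : (G : Type) → [Group G] → Prop),
      (∀ (G : Type) [Group G] [Finite G], X G → X (Wr G)) →
      ((∀ (G : Type) [Group G] [Finite G] (P : Sylow p G), X G →
        ∀ Γ : Subgroup (ℂ ≃+* ℂ), (Γ : Set (ℂ ≃+* ℂ)) ⊆ H → Adm p (Γ : Set (ℂ ≃+* ℂ)) G P →
          EquivBij (Γ : Set (ℂ ≃+* ℂ)) (IrrP p G) (IrrP p (Nm P))) ↔
      ∀ (G : Type) [Group G] [Finite G] (P : Sylow p G), X G →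
        ∀ Γ : Subgroup (ℂ ≃+* ℂ), (Γ : Set (ℂ ≃+* ℂ)) ⊆ H → Adm p (Γ : Set (ℂ ≃+* ℂ)) G P →
          Nat.card (Fx (Γ : Set (ℂ ≃+* ℂ)) (IrrP p G)) ≡
            Nat.card (Fx (Γ : Set (ℂ ≃+* ℂ)) (IrrP p (Nm P))) [MOD 2])) ∧
    ∀ (G : Type) [Group G] [Finite G] (P : Sylow p G) (Γ : Subgroup (ℂ ≃+* ℂ)),
      Adm p (Γ : Set (ℂ ≃+* ℂ)) G P →
      (EquivBij (Γ : Set (ℂ ≃+* ℂ)) (IrrP p G) (IrrP p (Nm P)) ↔
        ∀ Δ : Subgroup (ℂ ≃+* ℂ), Δ ≤ Γ → ∀ j, 2 ^ j ≤ Nat.card G →
          ∀ Q : Sylow p (WrN j G), Nat.card (Fx (Δ : Set (ℂ ≃+* ℂ)) (IrrP p (WrN j G))) ≡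
            Nat.card (Fx (Δ : Set (ℂ ≃+* ℂ)) (IrrP p (Nm Q))) [MOD 2]) ∧
      ∀ (j : ℕ) (Q : Sylow p (WrN j G)), Adm p (Γ : Set (ℂ ≃+* ℂ)) (WrN j G) Q :=
  ⟨fun H X hX => all_groups hp2 X hX H, fun G _ _ P Γ h => ⟨one_group hp2 G P Γ h,
    fun j Q => adm_levels hp2 j G P h Q⟩⟩

end Pool.Agent.Results.MP_1ae3da_al.OddActionsParity
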