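import Pool.Agent.N22.MG.Gal

/-!
# The McKay–Galois conjecture: one number decides for a cyclic group of automorphisms

Let `σ` be a field automorphism of `ℂ`, for example a member of Navarro's group `𝓗`, and for a finite
group `G` let `a_σ(G)` be the number of the irreducible characters of `G` of degree prime to `p` fixed by
`σ`.

Proof. For a prime `q ≠ p`
`q a_σ(G ≀ C_q) = a_σ(G)^q + (q - 1) a_{σ^q}(G) - q a_σ(G) + q f a_σ(G)`,
where `f` is the number of `q`-th roots of unity fixed by `σ`. Indeed, the characters of `G ≀ C_q` are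
induced from products `θ_1 ⊗ ⋯ ⊗ θ_q` with `θ_i` not all equal, or they are twists of the canonical
extensions of `θ ⊗ ⋯ ⊗ θ`; the canonical extension of a `σ`-fixed character is `σ`-fixed, and the
character induced from `θ_1 ⊗ ⋯ ⊗ θ_q` is `σ`-fixed if and only if `σ` acts on `(θ_i)` as a rotation by
some `s`; for `s ≠ 0` such a tuple is given by a character fixed by `σ^q`. The Sylow subgroup `P^q` of
`G ≀ C_q` has the normalizer `N_G(P) ≀ C_q`. So, if `a_σ(G) = a_σ(N_G(P))` for all `G`, then also
`a_{σ^q}(G) = a_{σ^q}(N_G(P))`, and the same for all `σ^j`, `p ∤ j`. If `σ` acts with an order prime to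
`p`, then these powers of `σ` generate all subgroups of the group of permutations induced by `⟨σ⟩`,
and two permutation representations of a cyclic group are isomorphic if each element has the same
number of fixed points in both. Finally `a_σ(G × C_2) = 2 a_σ(G)`, so for `p ≠ 2` an error `o(|G|)` does
not matter.
-/

set_option autoImplicit false

noncomputable section

namespace Pool.Agent.Results.MP_1ae3da_al.OneAutomorphismDecides

open Pool.Agent.Q90.WR (FixedBy numFixed)
open Pool.Agent.Q259.BW (EquivBij)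
open Pool.Agent.N22.MG

variable {p : ℕ} [hp : Fact p.Prime]

/-- `a_σ(G) = a_σ(N_G(P))` for all `G` in `X` and all `P`. -/
def Equal (p : ℕ) (X : (G : Type) → [Group G] → Prop) (σ : ℂ ≃+* ℂ) : Prop :=
  ∀ (G : Type) [Group G] [Finite G] (P : Sylow p G), X G →
    numFixed p σ G = numFixed p σ (Subgroup.normalizer ((P : Subgroup G) : Set G))

/-- `a_σ(G) - a_σ(N_G(P)) = o(|G|)` for the groups `G` in `X`. -/
def Asymptotic (p : ℕ) (X : (G : Type) → [Group G] → Prop) (σ : ℂ ≃+* ℂ) : Prop :=
  ∀ ε : ℝ, 0 < ε → ∃ C : ℕ, ∀ (G : Type) [Group G] [Finite G] (P : Sylow p G), X G →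
    C ≤ Nat.card G → |(numFixed p σ G : ℝ) -
      numFixed p σ (Subgroup.normalizer ((P : Subgroup G) : Set G))| ≤ ε * Nat.card G

/-- For all `G` in `X` and all `P` there is a bijection between the irreducible characters of degree
prime to `p` of `G` and of `N_G(P)` which commutes with `σ`. -/
def Bijections (p : ℕ) (X : (G : Type) → [Group G] → Prop) (σ : ℂ ≃+* ℂ) : Prop :=
  ∀ (G : Type) [Group G] [Finite G] (P : Sylow p G), X G →
    EquivBij (Subgroup.zpowers σ : Set (ℂ ≃+* ℂ)) (IrrPr p G)
      (IrrPr p (Subgroup.normalizer ((P : Subgroup G) : Set G)))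

/-- `σ` acts with an order prime to `p` on the irreducible characters of degree prime to `p` of `G` and
of `N_G(P)`, for all `G` in `X` and all `P`. -/
def OrderPrimeTo (p : ℕ) (X : (G : Type) → [Group G] → Prop) (σ : ℂ ≃+* ℂ) : Prop :=
  ∀ (G : Type) [Group G] [Finite G] (P : Sylow p G), X G → ∃ n : ℕ, ¬ p ∣ n ∧
    (∀ χ ∈ IrrPr p G, FixedBy (σ ^ n) χ) ∧
    ∀ χ ∈ IrrPr p (Subgroup.normalizer ((P : Subgroup G) : Set G)), FixedBy (σ ^ n) χ

/-- **The McKay–Galois conjecture for cyclic groups of automorphisms: one number decides.** Let `p` be a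
prime, let `σ` be a field automorphism of `ℂ` and let `X` be a class of groups closed under wreath
products `G ≀ C_q`, `q ≠ p` prime. Let `a_σ(G)` be the number of the irreducible characters of `G` of
degree prime to `p` fixed by `σ`.
(1) If `a_σ(G) = a_σ(N_G(P))` for all `G ∈ X` and all `P`, then the same holds for all powers `σ^j`,
`p ∤ j`.
(2) If `σ` acts with an order prime to `p` on the characters (of degree prime to `p`) of the groups
in `X` and of the groups `N_G(P)`, then bijections `Irr_{p'}(G) → Irr_{p'}(N_G(P))` which commute with `σ`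
exist for all `G ∈ X` and all `P` if and only if `a_σ(G) = a_σ(N_G(P))` for all `G ∈ X` and all `P`.
(3) If `p ≠ 2` and `X` is also closed under direct products with a group of order two, then
`a_σ(G) = a_σ(N_G(P))` for all `G ∈ X` and all `P` if and only if `a_σ(G) - a_σ(N_G(P)) = o(|G|)`. -/
theorem result (p : ℕ) [Fact p.Prime] (σ : ℂ ≃+* ℂ) (X : (G : Type) → [Group G] → Prop)
    (hX : ClosedWr p X) :
    (Equal p X σ → ∀ j : ℕ, ¬ p ∣ j → Equal p X (σ ^ j)) ∧
    (OrderPrimeTo p X σ → (Bijections p X σ ↔ Equal p X σ)) ∧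
    (p ≠ 2 → (∀ (G : Type) [Group G] [Finite G], X G → X (G × Multiplicative (ZMod 2))) →
      (Equal p X σ ↔ Asymptotic p X σ)) := by
  refine ⟨fun h j hj => ?_, fun h => ⟨fun h1 => ?_, fun h1 => ?_⟩, fun hp2 h2 => ⟨fun h => ?_,
    fun h => eqFix_of_asym hp2 h2 h⟩⟩
  · have hj0 : 0 < j := by
      rcases Nat.eq_zero_or_pos j with h1 | h1
      · rw [h1] at hj
        exact absurd (dvd_zero p) hj
      · exact h1
    exact eqFix_pow hX j hj0 hj σ h
  · intro G _ _ P hG
    exact eqFix_of_bij (h1 G P hG)
  · intro G _ _ P hG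
    obtain ⟨n, hn, h3, h4⟩ := h G P hG
    exact bij_of_eqFix hX h1 P hG hn h3 h4
  · intro ε hε
    refine ⟨0, fun G _ _ P hG _ => ?_⟩
    rw [h G P hG, sub_self, abs_zero]
    positivity

end Pool.Agent.Results.MP_1ae3da_al.OneAutomorphismDecides
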