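import Pool.Agent.N84.MG.Main

/-!
# The McKay–Galois conjecture: characters with Galois orbits of `p`-power length decide

Notation (`Pool/Agent/N84/MG/Chr.lean`, `Pool/Agent/N84/MG/Main.lean`, `Pool/Agent/N19/RB/DefB.lean`,
`Pool/Agent/Q259/BW/Bij.lean`).

* `HG p G` is Navarro's group `𝓗` for `G`: the automorphisms `τ` of `ℂ` for which some `e ≥ 0` gives
  `τ ξ = ξ ^ (p ^ e)` for all `m`-th roots of unity `ξ`, `m` the `p'`-part of `|G|`.
* `XP p G` is `Irr_{p'}(G)`, `NS S` is the normalizer of the Sylow `p`-subgroup `S`.
* `EquivBij Γ A A'`: there is a bijection `A → A'` commuting with all `σ ∈ Γ`.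
* `PowOrb p Γ A`: the characters `χ ∈ A` for which the length of the orbit `{σ χ | σ ∈ Γ}` is a power
  of `p`; for `Γ = HG p G` this length is the degree of the field of values of `χ` over `ℚ_p`.
* `Ext p G H`: the group `H` has a normal subgroup isomorphic to `C_d × G^n` for some `d`, `n`, with
  abelian factor group of order prime to `p`.

Proof. Let `|G| = p^a m`, let `f` be the `p'`-part of `φ(m)`, `M = p (p^f - 1)`, let `P` be the image of
`𝓗` in `(ℤ/M)ˣ` (a `p'`-group), let `Δ ≤ 𝓗` and let `Q ≤ P` be the image of (the group of lifts of) `Δ`.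
The automorphisms in `𝓗` whose image in `P` lies in `Q` form a group `R` and `R / Δ` is a `p`-group, so
there is `L ≤ 𝓗` of `p`-power index with `L ∩ R = Δ`; the image of `L` is `P`. For `D ∣ M` let
`W_D(G) = (C_D × G^ι) ⋊ P`, `ι = P / Q`, where `P` acts on `C_D` as a group of automorphisms and permutes
the factors `G`. The normalizer of a Sylow subgroup is `W_D(N_G(S))`. The characters of `W_M(G)` of
`p'`-degree above a faithful character of `C_M` are induced from `μ ⊗ ⨂ τ_i`, and such a character is
fixed by `L` if and only if the family `τ` is `L`-equivariant, that is, given by a `Δ`-fixed character in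
`Irr_{p'}(G)`. The other characters are inflated from the groups `W_D(G)`, `D ∣ M`, `D < M`. So equal
numbers of `L`-fixed characters for all `W_D(G)` and `W_D(N_G(S))` imply
`|Irr_{p'}(G)^Δ| = |Irr_{p'}(N_G(S))^Δ|`; and `L`-fixed characters have orbits of `p`-power length.
-/

set_option autoImplicit false

namespace Pool.Agent.Results.MP_1ae3da_al.PowerOrbits

open Pool.Agent.N84.MG Pool.Agent.Q259.BW Pool.Agent.N19.RB

/-- **Orbits of `p`-power length decide.** Let `p` be a prime.
(1) Let `G` be a finite group with Sylow `p`-subgroup `S`. If for all finite groups `H` which have a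
normal subgroup isomorphic to some `C_d × G^n` with abelian factor group of order prime to `p` and for
all Sylow `p`-subgroups `T` of `H` there is an `𝓗`-equivariant bijection between the characters in
`Irr_{p'}(H)` and those in `Irr_{p'}(N_H(T))` with `𝓗`-orbits of `p`-power length, then there is an
`𝓗`-equivariant bijection between `Irr_{p'}(G)` and `Irr_{p'}(N_G(S))`.
(2) Consequently, for every class `X` of finite groups which is closed under passing from `G` to such
groups `H` (for example all finite groups, or the finite groups whose nonabelian composition factors lie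
in a given set): the McKay–Galois conjecture holds for all groups in `X` and the prime `p`, if and only
if for all groups in `X` there is an `𝓗`-equivariant bijection between the characters in `Irr_{p'}(G)`
and in `Irr_{p'}(N_G(S))` with `𝓗`-orbits of `p`-power length. -/
theorem result (p : ℕ) [Fact p.Prime] :
    (∀ (G : Type) [Group G] [Finite G] (S : Sylow p G),
      (∀ (H : Type) [Group H] [Finite H] (T : Sylow p H), Ext p G H →
        EquivBij (HG p H) (PowOrb p (HG p H) (XP p H)) (PowOrb p (HG p H) (XP p (NS T)))) →
      EquivBij (HG p G) (XP p G) (XP p (NS S))) ∧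
    ∀ X : (G : Type) → [Group G] → Prop,
      (∀ (G H : Type) [Group G] [Group H] [Finite G] [Finite H], X G → Ext p G H → X H) →
      ((∀ (G : Type) [Group G] [Finite G] (S : Sylow p G), X G →
          EquivBij (HG p G) (XP p G) (XP p (NS S))) ↔
        ∀ (G : Type) [Group G] [Finite G] (S : Sylow p G), X G →
          EquivBij (HG p G) (PowOrb p (HG p G) (XP p G)) (PowOrb p (HG p G) (XP p (NS S)))) := by
  refine ⟨fun G _ _ S h => reduce S h, fun X hX => ⟨fun h G _ _ S hG => ?_, fun h G _ _ S hG =>
    reduce S fun H _ _ T hH => h H T (hX G H hG hH)⟩⟩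
  obtain ⟨Γ, hΓ⟩ := hg_sub (p := p) G
  have h1 := h G S hG
  rw [← hΓ] at h1 ⊢
  exact res_bij h1

end Pool.Agent.Results.MP_1ae3da_al.PowerOrbits
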